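import Mathlib
import Pool.Agent.W513.Mod.Defs
import Pool.Agent.W513.Mod.Ex

/-!
# MP_76d46b_ag: moduli of wildly ramified covers are reducible

All definitions used below are in `Pool.Agent.W513.Mod.Defs`.  `Space k P η` is the topological
space of the moduli stack of `P`-covers of genus zero curves with ramification configuration `η`
(the genus of the covering curve is determined by Riemann–Hurwitz: here it is `3`).

The two closed subsets are: covers in which every nontrivial element of `P` has a fixed point, and
covers in which some nontrivial element has fixed points above two different branch points.  Neither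
is everything: in characteristic two there are `(ℤ/2)²`-covers of the line branched above
`0, 1, ∞` with inertia groups `⟨a⟩, ⟨a⟩, ⟨b⟩`, and others with inertia groups
`⟨a⟩, ⟨b⟩, ⟨ab⟩`, all with lower jump one.
-/

open CategoryTheory AlgebraicGeometry Pool.Agent.W513.Mod

universe u

/-- For every algebraically closed field `k` of characteristic two, `P = (ℤ/2)²`, and the
ramification configuration `{4, 4, 4}` over curves of genus zero, the moduli space is not empty and
not irreducible; it is the union of two proper closed subsets which do not change when the action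
of `P` is twisted by an automorphism of `P`. -/
theorem Pool.Agent.Results.MP_76d46b_ag.ModuliReducible.result
    (k : Type u) [Field k] [IsAlgClosed k] [CharP k 2] :
    Nonempty (Space k (Multiplicative (ZMod 2 × ZMod 2)) {4, 4, 4}) ∧
    ¬ IrreducibleSpace (Space k (Multiplicative (ZMod 2 × ZMod 2)) {4, 4, 4}) ∧
    ∃ Z W : Set (Space k (Multiplicative (ZMod 2 × ZMod 2)) {4, 4, 4}),
      IsClosed Z ∧ IsClosed W ∧ Z ∪ W = Set.univ ∧ Z ≠ Set.univ ∧ W ≠ Set.univ ∧
      ∀ (α : Multiplicative (ZMod 2 × ZMod 2) ≃* Multiplicative (ZMod 2 × ZMod 2))
        (p : Pt k (Multiplicative (ZMod 2 × ZMod 2)) {4, 4, 4}),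
        (Space.mk (p.relabel α) ∈ Z ↔ Space.mk p ∈ Z) ∧
        (Space.mk (p.relabel α) ∈ W ↔ Space.mk p ∈ W) :=
  main k
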